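import Pool.Agent.Helper12.CW.NF0
import Pool.Agent.Helper12.CX.THR

/-!
Plan W (MP_c75db0): the products of the polar vectors for `x ≥ xA`, the form is indefinite.
-/

set_option autoImplicit false
noncomputable section
namespace Pool.Agent.Helper6.MONO.W2

open Matrix Filter Topology

/-- the two sines -/
def kS1 (p : ℕ) (a : Bool) (k : ℕ) : ℝ :=
  Real.sin ((if a then (k : ℝ) + 1 else (k : ℝ) - 1) * phi p / 2)
def kS2 (p : ℕ) (a : Bool) (k : ℕ) : ℝ :=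
  Real.sin ((if a then (k : ℝ) - 1 else (k : ℝ) + 1) * phi p / 2)

theorem kap_val {p q r : ℕ} (hp : 3 ≤ p) (hq : 3 ≤ q) (hr : 3 ≤ r) (a : Bool) {k : ℕ}
    (hk : 1 ≤ k) {x : ℝ} (h1 : -2 ≤ x) (h2 : x ≤ 2) :
    ‖cj (phi p) (Kp q) (Kp r) a k x‖ ^ 2 * Real.sin (phi p) ^ 2 =
      Kp q ^ 2 * kS1 p a k ^ 2 + Kp r ^ 2 * kS2 p a k ^ 2 +
        Kp q * Kp r * x * kS1 p a k * kS2 p a k :=
  st_KJ p q r hp hq hr a k x h1 h2 hk

theorem kap_der {p q r : ℕ} (hp : 3 ≤ p) (hq : 3 ≤ q) (hr : 3 ≤ r) (a : Bool) {k : ℕ}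
    (hk : 1 ≤ k) {x : ℝ} (h1 : -2 < x) (h2 : x < 2) :
    2 * (cjd (phi p) (Kp r) a k x * star (cj (phi p) (Kp q) (Kp r) a k x)).re *
      Real.sin (phi p) ^ 2 = Kp q * Kp r * kS1 p a k * kS2 p a k := by
  have hc := ((cj_deriv (phi p) (Kp q) (Kp r) a k h1 h2).norm_sq).mul_const
    (Real.sin (phi p) ^ 2)
  have hd : HasDerivAt (fun x => Kp q ^ 2 * kS1 p a k ^ 2 + Kp r ^ 2 * kS2 p a k ^ 2 +
      Kp q * Kp r * x * kS1 p a k * kS2 p a k) (Kp q * Kp r * kS1 p a k * kS2 p a k) x := by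
    have h := ((((hasDerivAt_id x).const_mul (Kp q * Kp r)).mul_const (kS1 p a k)).mul_const
      (kS2 p a k)).const_add (Kp q ^ 2 * kS1 p a k ^ 2 + Kp r ^ 2 * kS2 p a k ^ 2)
    simpa using h
  have hev : (fun x => ‖cj (phi p) (Kp q) (Kp r) a k x‖ ^ 2 * Real.sin (phi p) ^ 2) =ᶠ[𝓝 x]
      fun x => Kp q ^ 2 * kS1 p a k ^ 2 + Kp r ^ 2 * kS2 p a k ^ 2 +
        Kp q * Kp r * x * kS1 p a k * kS2 p a k := by
    filter_upwards [Ioo_mem_nhds h1 h2] with y hy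
    exact kap_val hp hq hr a hk hy.1.le hy.2.le
  have e2 : ∀ c c' : ℂ, inner ℝ c c' = (c' * star c).re := by
    intro c c'
    rw [Complex.inner]
    rfl
  have := (hc.congr_of_eventuallyEq hev.symm).unique hd
  rw [e2] at this
  exact this

theorem sin_three (y f : ℝ) : 2 * Real.cos f * Real.sin y - Real.sin (y + f) =
    Real.sin (y - f) := by
  rw [Real.sin_add, Real.sin_sub]
  ring

theorem sin_three' (y f : ℝ) : 2 * Real.cos f * Real.sin (y + f) - Real.sin y =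
    Real.sin (y + 2 * f) := by
  have := sin_three (y + f) (-f)
  have e1 : y + f + -f = y := by ring
  have e2 : y + f - -f = y + 2 * f := by ring
  rw [e1, e2, Real.cos_neg] at this
  exact this

theorem sin_quad (y f : ℝ) : Real.sin y ^ 2 + Real.sin (y + f) ^ 2 -
    2 * Real.cos f * Real.sin y * Real.sin (y + f) = Real.sin f ^ 2 := by
  have h1 := Real.sin_sq_add_cos_sq y
  have h2 := Real.sin_sq_add_cos_sq f
  rw [Real.sin_add]
  linear_combination (Real.sin f ^ 2) * h1 + (-(Real.sin y ^ 2)) * h2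

/-- algebra -/
theorem kap_alg {κp κq κr s1 s2 s x : ℝ} (hp : 1 ≤ κp) (hq : 0 < κq) (hqr : κq ≤ κr)
    (hr : κr < 2) (h1 : 0 ≤ s1) (h2 : 0 ≤ s2) (hs : s1 ^ 2 + s2 ^ 2 - κp * s1 * s2 = s)
    (hx : 4 - κr ^ 2 - κp ^ 2 * κq ^ 2 ≤ x * (κp * κq * κr)) (ha : 0 ≤ κp * s2 - s1)
    (hb : 0 ≤ (4 - κq ^ 2) * κp * s1 - (4 - κr ^ 2) * s2) :
    4 * s ≤ κq ^ 2 * s1 ^ 2 + κr ^ 2 * s2 ^ 2 + κq * κr * x * s1 * s2 := by
  have h12 : 0 ≤ s1 * s2 := mul_nonneg h1 h2
  have e1 : (4 - κr ^ 2 - κp ^ 2 * κq ^ 2) * (s1 * s2) ≤ x * (κp * κq * κr) * (s1 * s2) :=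
    mul_le_mul_of_nonneg_right hx h12
  have e2 := mul_nonneg ha hb
  have e3 : κp * (4 * s) ≤ κp * (κq ^ 2 * s1 ^ 2 + κr ^ 2 * s2 ^ 2 + κq * κr * x * s1 * s2) := by
    rw [← hs]
    nlinarith
  exact le_of_mul_le_mul_left e3 (by linarith)

theorem phi_pos {p : ℕ} (hp : 3 ≤ p) : 0 < phi p ∧ (p : ℝ) * phi p = Real.pi := by
  have h3 : (3 : ℝ) ≤ p := by exact_mod_cast hp
  have hp0 : (0 : ℝ) < p := by linarith
  refine ⟨div_pos Real.pi_pos hp0, ?_⟩
  unfold phi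
  field_simp

theorem kap_main {p q r : ℕ} (hp : 3 ≤ p) (hpq : p ≤ q) (hqr : q ≤ r) (a : Bool) {m : ℕ}
    (hm : 1 ≤ m) (hk : 2 * m + 1 ≤ p) (hka : a = true → 2 * m + 1 < p) :
    0 ≤ kS1 p a (2 * m + 1) ∧ 0 ≤ kS2 p a (2 * m + 1) ∧
    kS1 p a (2 * m + 1) ^ 2 + kS2 p a (2 * m + 1) ^ 2 -
      Kp p * kS1 p a (2 * m + 1) * kS2 p a (2 * m + 1) = Real.sin (phi p) ^ 2 ∧
    0 ≤ Kp p * kS2 p a (2 * m + 1) - kS1 p a (2 * m + 1) ∧
    0 ≤ (4 - Kp q ^ 2) * Kp p * kS1 p a (2 * m + 1) -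
      (4 - Kp r ^ 2) * kS2 p a (2 * m + 1) := by
  have hq : 3 ≤ q := hp.trans hpq
  have hr : 3 ≤ r := hq.trans hqr
  obtain ⟨f0, fp⟩ := phi_pos hp
  have hmon := Kp_mono hq hqr
  obtain ⟨a1, a2⟩ := thr_Kp2 p hp
  obtain ⟨b1, b2⟩ := thr_Kp2 q hq
  obtain ⟨c1, c2⟩ := thr_Kp2 r hr
  have hm' : (1 : ℝ) ≤ m := by exact_mod_cast hm
  have hk' : 2 * (m : ℝ) + 1 ≤ p := by exact_mod_cast hk
  have hp' : (3 : ℝ) ≤ p := by exact_mod_cast hp
  have hα : 0 ≤ 4 - Kp q ^ 2 := by nlinarith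
  have hβ : 0 ≤ 4 - Kp r ^ 2 := by nlinarith
  have hαβ : 4 - Kp r ^ 2 ≤ 4 - Kp q ^ 2 := by nlinarith
  have hKp : Kp p = 2 * Real.cos (phi p) := rfl
  have eP : (((2 * m + 1 : ℕ) : ℝ) + 1) * phi p / 2 = m * phi p + phi p := by push_cast; ring
  have eM : (((2 * m + 1 : ℕ) : ℝ) - 1) * phi p / 2 = m * phi p := by push_cast; ring
  have y0 : 0 ≤ m * phi p := by positivity
  have hmf : phi p ≤ m * phi p := by nlinarith
  have hquad := sin_quad (m * phi p) (phi p)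
  have t1 := sin_three (m * phi p) (phi p)
  have t2 := sin_three' (m * phi p) (phi p)
  have hpf : (2 * (m : ℝ) + 1) * phi p ≤ Real.pi := by
    rw [← fp]
    exact mul_le_mul_of_nonneg_right hk' f0.le
  have n1 : 0 ≤ Real.sin (m * phi p) :=
    Real.sin_nonneg_of_nonneg_of_le_pi y0 (by nlinarith)
  have n2 : 0 ≤ Real.sin (m * phi p + phi p) :=
    Real.sin_nonneg_of_nonneg_of_le_pi (by linarith) (by nlinarith)
  have n3 : 0 ≤ Real.sin (m * phi p - phi p) :=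
    Real.sin_nonneg_of_nonneg_of_le_pi (by linarith) (by nlinarith)
  rw [← hKp] at t1 t2 hquad
  cases a with
  | true =>
    have hlt := hka rfl
    have hk2 : 2 * (m : ℝ) + 2 ≤ p := by exact_mod_cast hlt
    have hpf2 : (2 * (m : ℝ) + 2) * phi p ≤ Real.pi := by
      rw [← fp]
      exact mul_le_mul_of_nonneg_right hk2 f0.le
    have e1 : kS1 p true (2 * m + 1) = Real.sin (m * phi p + phi p) := by
      rw [kS1, if_pos rfl, eP]
    have e2 : kS2 p true (2 * m + 1) = Real.sin (m * phi p) := by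
      rw [kS2, if_pos rfl, eM]
    have hmono : Real.sin (m * phi p) ≤ Real.sin (m * phi p + phi p) := by
      apply Real.sin_le_sin_of_le_of_le_pi_div_two <;> nlinarith [Real.pi_pos]
    rw [e1, e2]
    refine ⟨n2, n1, by linarith, ?_, ?_⟩
    · rw [t1]; exact n3
    · have g1 : (4 - Kp r ^ 2) * Real.sin (m * phi p) ≤
          (4 - Kp q ^ 2) * Real.sin (m * phi p + phi p) :=
        mul_le_mul hαβ hmono n1 hα
      have g2 : (4 - Kp q ^ 2) * Real.sin (m * phi p + phi p) ≤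
          (4 - Kp q ^ 2) * Kp p * Real.sin (m * phi p + phi p) := by
        have : 0 ≤ (4 - Kp q ^ 2) * Real.sin (m * phi p + phi p) := mul_nonneg hα n2
        nlinarith
      linarith
  | false =>
    have e1 : kS1 p false (2 * m + 1) = Real.sin (m * phi p) := by
      rw [kS1, if_neg (by simp), eM]
    have e2 : kS2 p false (2 * m + 1) = Real.sin (m * phi p + phi p) := by
      rw [kS2, if_neg (by simp), eP]
    have n4 : 0 ≤ Real.sin (m * phi p + 2 * phi p) := by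
      refine Real.sin_nonneg_of_nonneg_of_le_pi (by linarith) ?_
      have h5 : 2 * ((m : ℝ) + 2) ≤ 2 * p := by linarith
      have h6 : 2 * ((m : ℝ) + 2) * phi p ≤ 2 * p * phi p := mul_le_mul_of_nonneg_right h5 f0.le
      nlinarith
    rw [e1, e2]
    refine ⟨n1, n2, by linarith, ?_, ?_⟩
    · rw [t2]; exact n4
    · have g0 : 0 ≤ Kp p * Real.sin (m * phi p) := mul_nonneg (by linarith) n1
      have g1 : (4 - Kp r ^ 2) * (Kp p * Real.sin (m * phi p)) ≤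
          (4 - Kp q ^ 2) * (Kp p * Real.sin (m * phi p)) := mul_le_mul_of_nonneg_right hαβ g0
      have g2 : 0 ≤ (4 - Kp r ^ 2) * (Kp p * Real.sin (m * phi p) -
          Real.sin (m * phi p + phi p)) := by
        rw [t1]
        exact mul_nonneg hβ n3
      nlinarith

theorem st_KAP : ST_KAP := by
  intro p q r hp hpq hqr x hxA hx2 a k hsy hodd
  have hq : 3 ≤ q := hp.trans hpq
  have hr : 3 ≤ r := hq.trans hqr
  have hx1 : -2 < x := lt_of_lt_of_le (xA_gt hp hq hqr) hxA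
  obtain ⟨a1, a2⟩ := thr_Kp2 p hp
  obtain ⟨b1, b2⟩ := thr_Kp2 q hq
  obtain ⟨c1, c2⟩ := thr_Kp2 r hr
  have hs := phi_sin hp
  have hs2 : 0 < Real.sin (phi p) ^ 2 := by positivity
  obtain ⟨hk1, hkp, hka⟩ := hsy
  simp only at hk1 hkp hka
  have hval := kap_val hp hq hr a hk1 hx1.le hx2.le
  have hder := kap_der hp hq hr a hk1 hx1 hx2
  constructor
  · rintro rfl
    have z1 : kS1 p a 1 * kS2 p a 1 = 0 := by
      cases a <;> simp [kS1, kS2]
    have hn := norm_nonneg (cj (phi p) (Kp q) (Kp r) a 1 x)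
    constructor
    · have hsq : ‖cj (phi p) (Kp q) (Kp r) a 1 x‖ ^ 2 = (if a then Kp q else Kp r) ^ 2 := by
        have e : ‖cj (phi p) (Kp q) (Kp r) a 1 x‖ ^ 2 * Real.sin (phi p) ^ 2 =
            (if a then Kp q else Kp r) ^ 2 * Real.sin (phi p) ^ 2 := by
          rw [hval]
          cases a
          · simp [kS1, kS2]
            left
            congr 1
            ring
          · simp [kS1, kS2]
            left
            congr 1
            ring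
        exact mul_right_cancel₀ hs2.ne' e
      have h0 : 0 ≤ (if a then Kp q else Kp r) := by
        split_ifs <;> linarith
      exact (pow_left_inj₀ hn h0 two_ne_zero).1 hsq
    · have : (cjd (phi p) (Kp r) a 1 x * star (cj (phi p) (Kp q) (Kp r) a 1 x)).re = 0 := by
        have e : (cjd (phi p) (Kp r) a 1 x * star (cj (phi p) (Kp q) (Kp r) a 1 x)).re *
            Real.sin (phi p) ^ 2 = 0 := by
          have : Kp q * Kp r * kS1 p a 1 * kS2 p a 1 = 0 := by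
            rw [mul_assoc, z1, mul_zero]
          linarith
        rcases mul_eq_zero.1 e with h | h
        · exact h
        · exact absurd h hs2.ne'
      rw [kjd, this, zero_div]
  · intro h3
    obtain ⟨m, rfl⟩ : ∃ m, k = 2 * m + 1 := ⟨k / 2, by omega⟩
    obtain ⟨s1, s2, hquad, ha, hb⟩ := kap_main hp hpq hqr a (by omega : 1 ≤ m) hkp hka
    have hmon := Kp_mono hq hqr
    have hx : 4 - Kp r ^ 2 - Kp p ^ 2 * Kp q ^ 2 ≤ x * (Kp p * Kp q * Kp r) := by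
      rw [xA_eq, div_le_iff₀ (by positivity)] at hxA
      exact hxA
    have hmain := kap_alg a1 (by linarith) hmon c2 s1 s2 hquad hx ha hb
    have hn := norm_nonneg (cj (phi p) (Kp q) (Kp r) a (2 * m + 1) x)
    have h4 : 4 ≤ ‖cj (phi p) (Kp q) (Kp r) a (2 * m + 1) x‖ ^ 2 := by
      rw [← hval] at hmain
      exact le_of_mul_le_mul_right hmain hs2
    constructor
    · nlinarith
    · rw [kjd]
      refine div_nonneg ?_ hn
      have e : 0 ≤ Kp q * Kp r * kS1 p a (2 * m + 1) * kS2 p a (2 * m + 1) := by positivity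
      rw [← hder] at e
      by_contra hlt
      push Not at hlt
      nlinarith

theorem st_TPO : ST_TPO := by
  intro p q r hp hpq hqr hr4 x hxA hx2
  have hq : 3 ≤ q := hp.trans hpq
  have hr : 3 ≤ r := hq.trans hqr
  have hx1 : -2 < x := lt_of_lt_of_le (xA_gt hp hq hqr) hxA
  obtain ⟨a1, a2⟩ := thr_Kp2 p hp
  obtain ⟨b1, b2⟩ := thr_Kp2 q hq
  obtain ⟨c1, c2⟩ := thr_Kp2 r hr
  have hT := (st_TT p q r hp hq hr x hx1.le hx2.le).1
  have hx : 4 - Kp r ^ 2 - Kp p ^ 2 * Kp q ^ 2 ≤ x * (Kp p * Kp q * Kp r) := by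
    rw [xA_eq, div_le_iff₀ (by positivity)] at hxA
    exact hxA
  have m1 := Kp_mono hp hpq
  have m2 := Kp_mono hq hqr
  have m3 := Kp_mono (by norm_num : 3 ≤ 4) hr4
  have h4 := Kp4_sq
  have hr2 : 2 ≤ Kp r ^ 2 := by
    rw [← h4]
    have h0 : 0 ≤ Kp 4 := by linarith [(thr_Kp2 4 (by norm_num)).1]
    exact pow_le_pow_left₀ h0 m3 2
  have hP1 : 1 ≤ Kp p ^ 2 := by nlinarith
  have hPQ : Kp p ^ 2 ≤ Kp q ^ 2 := by nlinarith
  have hQR : Kp q ^ 2 ≤ Kp r ^ 2 := by nlinarith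
  have hR4 : Kp r ^ 2 < 4 := by nlinarith
  have key : 0 < Kp r ^ 2 + (2 - Kp p ^ 2) * (Kp q ^ 2 - 2) := by
    generalize Kp p ^ 2 = P at *
    generalize Kp q ^ 2 = Q at *
    generalize Kp r ^ 2 = R at *
    rcases le_or_gt P 2 with h | h
    · nlinarith
    · nlinarith [mul_pos (sub_pos.2 h) (sub_pos.2 (lt_of_lt_of_le h hPQ))]
  have hpos : 0 < 4 - Kp p ^ 2 := by linarith
  have hfin : 2 * (4 - Kp p ^ 2) < (tt (phi p) (Kp q) (Kp r) x + 2) * (4 - Kp p ^ 2) := by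
    rw [hT]
    nlinarith
  have := lt_of_mul_lt_mul_right hfin hpos.le
  linarith

end Pool.Agent.Helper6.MONO.W2
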