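import Pool.Agent.Helper51.CW.Tdr

/-!
Plan W (MP_c75db0), typed frame: the charts are bounded and invertible on compact intervals.
-/

set_option autoImplicit false
noncomputable section
namespace Pool.Agent.Helper6.MONO.W2

open Matrix Filter Topology
open Pool.Agent.Helper21.SUP (GS DG DG_nx)
open Pool.Agent.Helper21.SUP renaming nx → nxs

theorem TM_upper {p q r : ℕ} (hp : 3 ≤ p) (hq : 3 ≤ q) (hr : 3 ≤ r) {x : ℝ} (h1 : -2 < x)
    (h2 : x < 2) {s : GS} (hs : DG s) {B : ℝ} (hB : ‖tq p q r s x‖ ≤ B) (X : V3) :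
    ‖(TM p q r s (zw (zx x))).mulVec X‖ ≤
      (1 + 6 * (B / kk p q r s.1 s.2.2)) * ‖X‖ := by
  have hx0 : (-2 : ℝ) < (x - 2) / 2 := by linarith
  have hz := inX_zx h1 h2
  have hz1 := zx_norm h1.le h2.le
  have hwz := wz_zw hx0 hz
  obtain ⟨o1, g1, e1⟩ := LNI_Gh hp hq hr hx0 hz hs
  obtain ⟨n, a, b⟩ := s
  have hd : Dist n a b := hs
  have k1 := (LNI_kk hp hq hr n a hd.1)
  have k3 := (LNI_kk hp hq hr n b (Ne.symm hd.2.2))
  have c1 : (kk p q r n a : ℂ) ≠ 0 := by exact_mod_cast k1.1.ne'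
  have c3 : (kk p q r n b : ℂ) ≠ 0 := by exact_mod_cast k3.1.ne'
  have hT : (TM p q r (n, a, b) (zw (zx x))).mulVec X =
      TSv (kk p q r) (wG (cw p q r) (zx x)) n a b X := by
    rw [TM_mulVec hs, hwz]
  rw [hT]
  simp only at o1 g1 e1 ⊢
  set G := wG (cw p q r) (zx x) with hGdef
  set Gh := GhP (kk p q r n a) (kk p q r a b) (kk p q r n b) (zoG (kk p q r) G n a b) with hGh
  set om := omS p q r (n, a, b) (zw (zx x)) with hom
  have hBom : ‖om‖ ≤ B := hB
  have hB0 : 0 ≤ B := (norm_nonneg _).trans hBom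
  have nan : ‖G a n‖ = kk p q r n a := by
    rw [hGdef, wG_norm hp hq hr hz1 a n (Ne.symm hd.1), LNI_kk_symm]
  have nbn : ‖G b n‖ = kk p q r n b := by
    rw [hGdef, wG_norm hp hq hr hz1 b n hd.2.2, LNI_kk_symm]
  have nk1 : ‖(kk p q r n a : ℂ)‖ = kk p q r n a := by
    rw [Complex.norm_real, Real.norm_eq_abs, abs_of_pos k1.1]
  have nk3 : ‖(kk p q r n b : ℂ)‖ = kk p q r n b := by
    rw [Complex.norm_real, Real.norm_eq_abs, abs_of_pos k3.1]
  have i1 : 1 / ((kk p q r n a : ℂ) * Gh) = om / (kk p q r n b : ℂ) := by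
    rw [← e1]
    field_simp
  have hXn := norm_nonneg X
  have hb0 : 0 ≤ B / kk p q r n b := div_nonneg hB0 k3.1.le
  have t0 : TSv (kk p q r) G n a b X 0 = G b n / (kk p q r n b : ℂ) * X b := by simp [TSv]
  have t1 : TSv (kk p q r) G n a b X 1 =
      (-2 * X n + G a n * X a + G b n * X b) * (om / (kk p q r n b : ℂ)) := by
    rw [← i1]
    simp [TSv, ← hGh]
    field_simp
  have t2 : TSv (kk p q r) G n a b X 2 = G a n * X a * (om / (kk p q r n b : ℂ)) := by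
    rw [← i1]
    simp [TSv, ← hGh]
    field_simp
  have nom : ‖om / (kk p q r n b : ℂ)‖ ≤ B / kk p q r n b := by
    rw [norm_div, nk3]
    exact div_le_div_of_nonneg_right hBom k3.1.le
  have xa := norm_le_pi_norm X a
  have xb := norm_le_pi_norm X b
  have xn := norm_le_pi_norm X n
  have ga : ‖G a n * X a‖ ≤ 2 * ‖X‖ := by
    rw [norm_mul, nan]
    exact mul_le_mul k1.2.le xa (norm_nonneg _) (by norm_num)
  have gb : ‖G b n * X b‖ ≤ 2 * ‖X‖ := by
    rw [norm_mul, nbn]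
    exact mul_le_mul k3.2.le xb (norm_nonneg _) (by norm_num)
  have gn : ‖-2 * X n‖ ≤ 2 * ‖X‖ := by
    rw [norm_mul, norm_neg, Complex.norm_ofNat]
    exact mul_le_mul_of_nonneg_left xn (by norm_num)
  rw [pi_norm_le_iff_of_nonneg (by positivity)]
  intro i
  fin_cases i
  · show ‖TSv (kk p q r) G n a b X 0‖ ≤ _
    rw [t0, norm_mul, norm_div, nbn, nk3, div_self k3.1.ne', one_mul]
    nlinarith [mul_nonneg hb0 hXn]
  · show ‖TSv (kk p q r) G n a b X 1‖ ≤ _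
    rw [t1, norm_mul]
    have hs : ‖-2 * X n + G a n * X a + G b n * X b‖ ≤ 6 * ‖X‖ := by
      refine (norm_add_le _ _).trans ?_
      have := norm_add_le (-2 * X n) (G a n * X a)
      linarith
    calc ‖-2 * X n + G a n * X a + G b n * X b‖ * ‖om / (kk p q r n b : ℂ)‖
        ≤ (6 * ‖X‖) * (B / kk p q r n b) := mul_le_mul hs nom (norm_nonneg _) (by positivity)
      _ ≤ (1 + 6 * (B / kk p q r n b)) * ‖X‖ := by nlinarith
  · show ‖TSv (kk p q r) G n a b X 2‖ ≤ _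
    rw [t2, norm_mul]
    calc ‖G a n * X a‖ * ‖om / (kk p q r n b : ℂ)‖
        ≤ (2 * ‖X‖) * (B / kk p q r n b) := mul_le_mul ga nom (norm_nonneg _) (by positivity)
      _ ≤ (1 + 6 * (B / kk p q r n b)) * ‖X‖ := by nlinarith [mul_nonneg hb0 hXn]

theorem tq_bound {p q r : ℕ} (hp : 3 ≤ p) (hq : 3 ≤ q) (hr : 3 ≤ r) {a b : ℝ} (h1 : -2 < a)
    (h2 : b < 2) (s : GS) : ∃ B : ℝ, 0 ≤ B ∧ ∀ x ∈ Set.Icc a b, DG s → ‖tq p q r s x‖ ≤ B := by
  by_cases hs : DG s
  · have hc : ContinuousOn (tq p q r s) (Set.Icc a b) := fun x hx =>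
      (tq_deriv hp hq hr (lt_of_lt_of_le h1 hx.1) (lt_of_le_of_lt hx.2 h2)
        hs).continuousAt.continuousWithinAt
    obtain ⟨C, hC⟩ := isCompact_Icc.exists_bound_of_continuousOn hc
    exact ⟨max C 0, le_max_right _ _, fun x hx _ => (hC x hx).trans (le_max_left _ _)⟩
  · exact ⟨0, le_rfl, fun x _ h => absurd h hs⟩

theorem st_TBD : ST_TBD := by
  intro p q r hp hq hr a b h1 h2
  have hx0 : (-2 : ℝ) < (a - 2) / 2 := by linarith
  obtain ⟨K, hK0, hK⟩ := LNI_bound hp hq hr hx0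
  choose B hB0 hB using fun s => tq_bound hp hq hr h1 h2 s
  have hn0 : ∀ s : GS, 0 ≤ |(kk p q r s.1 s.2.2)⁻¹| := fun s => abs_nonneg _
  set K' : ℝ := ∑ s : GS, (1 + 6 * (B s * |(kk p q r s.1 s.2.2)⁻¹|)) with hK'
  have hK'0 : 0 ≤ K' := Finset.sum_nonneg fun s _ => by
    have := hB0 s
    have := hn0 s
    positivity
  refine ⟨K + K', fun s hs x hx => ?_⟩
  have x1 : -2 < x := lt_of_lt_of_le h1 hx.1
  have x2 : x < 2 := lt_of_le_of_lt hx.2 h2
  have hz1 := zx_norm x1.le x2.le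
  have hlow : ∀ X : V3, ‖X‖ ≤ K * ‖(TM p q r s (zw (zx x))).mulVec X‖ := fun X =>
    (hK s (zx x) hz1 (by rw [zx_re]; have := hx.1; linarith) X).1
  refine ⟨?_, fun X => ⟨?_, ?_⟩⟩
  · intro hdet
    obtain ⟨v, hv, hv0⟩ := Matrix.exists_mulVec_eq_zero_iff.2 hdet
    have := hlow v
    rw [hv0, norm_zero, mul_zero] at this
    exact hv (norm_le_zero_iff.1 this)
  · refine (hlow X).trans (mul_le_mul_of_nonneg_right (by linarith) (norm_nonneg _))
  · have k3 := (LNI_kk hp hq hr s.1 s.2.2 (Ne.symm hs.2.2))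
    refine (TM_upper hp hq hr x1 x2 hs (hB s x hx hs) X).trans
      (mul_le_mul_of_nonneg_right ?_ (norm_nonneg _))
    have e : B s / kk p q r s.1 s.2.2 = B s * |(kk p q r s.1 s.2.2)⁻¹| := by
      rw [abs_of_pos (inv_pos.2 k3.1), div_eq_mul_inv]
    have hle : 1 + 6 * (B s * |(kk p q r s.1 s.2.2)⁻¹|) ≤ K' :=
      Finset.single_le_sum (f := fun s : GS => 1 + 6 * (B s * |(kk p q r s.1 s.2.2)⁻¹|))
        (fun s _ => by
          have := hB0 s
          have := hn0 s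
          positivity) (Finset.mem_univ s)
    rw [e]
    linarith

end Pool.Agent.Helper6.MONO.W2
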