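import Pool.Agent.Helper51.CW.Tln

/-!
Plan W (MP_c75db0), typed frame: derivative of the matrix of a run.
-/

set_option autoImplicit false
noncomputable section
namespace Pool.Agent.Helper6.MONO.W2

open Matrix Filter Topology
open Pool.Agent.Helper21.SUP (GS DG DG_nx)
open Pool.Agent.Helper21.SUP renaming nx → nxs

/-- the phase of the state -/
def tu (s : GS) (x : ℝ) : ℂ := if oriZ s then zx x else star (zx x)

theorem inv_eq_star {z : ℂ} (h : ‖z‖ = 1) : z⁻¹ = star z := by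
  rw [Complex.inv_def, Complex.normSq_eq_norm_sq, h]
  simp

theorem tu_eq {s : GS} {x : ℝ} (h1 : -2 < x) (h2 : x < 2) :
    (if oriZ s then zx x else (zx x)⁻¹) = tu s x := by
  rw [tu, inv_eq_star (zx_norm h1.le h2.le)]

theorem tu_deriv (s : GS) {x : ℝ} (h1 : -2 < x) (h2 : x < 2) :
    HasDerivAt (tu s) (if oriZ s then zd x else star (zd x)) x := by
  have h := zx_deriv h1 h2
  cases ho : oriZ s with
  | true =>
    have e : tu s = zx := by
      funext y
      simp [tu, ho]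
    rw [e]
    simpa using h
  | false =>
    have e : tu s = fun y => star (zx y) := by
      funext y
      simp [tu, ho]
    rw [e]
    simpa using star_deriv h

theorem tq_eq {p q r : ℕ} (hp : 3 ≤ p) (hq : 3 ≤ q) (hr : 3 ≤ r) {x : ℝ} (h1 : -2 < x)
    (h2 : x < 2) {s : GS} (hs : DG s) :
    1 + (lamS p q r s : ℂ) * tu s x ≠ 0 ∧
      tq p q r s x = 1 / (2 * (1 + (lamS p q r s : ℂ) * tu s x)) := by
  have hx0 : (-2 : ℝ) < (x - 2) / 2 := by linarith
  obtain ⟨a1, a2⟩ := LNI_om hx0 (inX_zx h1 h2) (oriZ s) (lamS p q r s) (LNI_lam_pos hp hq hr hs)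
  rw [tu_eq h1 h2] at a1 a2
  exact ⟨a1, a2⟩

theorem tq_ne {p q r : ℕ} (hp : 3 ≤ p) (hq : 3 ≤ q) (hr : 3 ≤ r) {x : ℝ} (h1 : -2 < x)
    (h2 : x < 2) {s : GS} (hs : DG s) : tq p q r s x ≠ 0 := by
  obtain ⟨a1, a2⟩ := tq_eq hp hq hr h1 h2 hs
  rw [a2]
  exact div_ne_zero one_ne_zero (mul_ne_zero two_ne_zero a1)

theorem tq_deriv {p q r : ℕ} (hp : 3 ≤ p) (hq : 3 ≤ q) (hr : 3 ≤ r) {x : ℝ} (h1 : -2 < x)
    (h2 : x < 2) {s : GS} (hs : DG s) : HasDerivAt (tq p q r s) (tqd p q r s x) x := by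
  obtain ⟨a1, a2⟩ := tq_eq hp hq hr h1 h2 hs
  have hu := tu_deriv s h1 h2
  have hev : tq p q r s =ᶠ[𝓝 x] fun y => 1 / (2 * (1 + (lamS p q r s : ℂ) * tu s y)) := by
    filter_upwards [Ioo_mem_nhds h1 h2] with y hy
    exact (tq_eq hp hq hr hy.1 hy.2 hs).2
  refine HasDerivAt.congr_of_eventuallyEq ?_ hev
  have h3 := (((hu.const_mul (lamS p q r s : ℂ)).const_add (1 : ℂ)).const_mul (2 : ℂ))
  have h4 := (hasDerivAt_const x (1 : ℂ)).fun_div h3 (mul_ne_zero two_ne_zero a1)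
  refine h4.congr_deriv ?_
  rw [tqd, a2]
  field_simp
  ring

/-- derivative of the entries of `tC` -/
theorem tC_deriv (od : Bool) (k : ℝ) {f g : ℝ → ℂ} {f' g' : ℂ} {x : ℝ} (hf : HasDerivAt f f' x)
    (hg : HasDerivAt g g' x) (h0 : f x ≠ 0) (i j : Fin 3) :
    HasDerivAt (fun x => tC od k (f x) (g x) i j) (tCd od k (f x) (g x) f' g' i j) x := by
  have hi := hf.fun_inv h0
  have hk : HasDerivAt (fun _ : ℝ => (0 : ℂ)) 0 x := hasDerivAt_const x _
  cases od with
  | true =>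
    fin_cases i <;> fin_cases j
    · exact (hi.mul_const (1 : ℂ)).congr_deriv (by simp [tCd])
    · exact (hi.mul_const (0 : ℂ)).congr_deriv (by simp [tCd])
    · exact (hi.mul_const (0 : ℂ)).congr_deriv (by simp [tCd])
    · exact (hi.mul_const (0 : ℂ)).congr_deriv (by simp [tCd])
    · exact (hi.fun_mul hg).congr_deriv (by simp [tCd]; field_simp; ring)
    · exact (hi.mul_const (0 : ℂ)).congr_deriv (by simp [tCd])
    · exact (hi.mul_const (0 : ℂ)).congr_deriv (by simp [tCd])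
    · exact (hi.mul_const (0 : ℂ)).congr_deriv (by simp [tCd])
    · exact (hi.fun_mul (hf.fun_mul hg)).congr_deriv (by simp [tCd]; field_simp; ring)
  | false =>
    have hc := ((hf.const_mul (k : ℂ)).div_const 2).sub_const
      ((k : ℂ) ^ 2 / (4 * (2 + (k : ℂ))))
    have hd := (hg.mul_const ((k : ℂ) / 2)).fun_mul (hf.const_sub (1 / 2 : ℂ))
    fin_cases i <;> fin_cases j
    · exact (hi.mul_const (1 : ℂ)).congr_deriv (by simp [tCd])
    · exact (hi.mul_const (0 : ℂ)).congr_deriv (by simp [tCd])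
    · refine (hi.fun_mul hc).congr_deriv ?_
      simp only [tCd, Bool.false_eq_true, if_false]
      show _ = (k : ℂ) ^ 2 / (4 * (2 + (k : ℂ))) * (f' / f x ^ 2)
      generalize (k : ℂ) ^ 2 / (4 * (2 + (k : ℂ))) = c
      field_simp
      ring
    · exact (hi.mul_const (0 : ℂ)).congr_deriv (by simp [tCd])
    · exact (hi.fun_mul hg).congr_deriv (by simp [tCd]; field_simp; ring)
    · exact (hi.mul_const (0 : ℂ)).congr_deriv (by simp [tCd])
    · exact (hi.mul_const (0 : ℂ)).congr_deriv (by simp [tCd])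
    · exact (hi.mul_const (0 : ℂ)).congr_deriv (by simp [tCd])
    · refine (hi.fun_mul hd).congr_deriv ?_
      simp only [tCd, Bool.false_eq_true, if_false]
      show _ = (k : ℂ) / 2 * (g' * (1 / (2 * f x) - 1) - g x * f' / (2 * f x ^ 2))
      field_simp
      ring

theorem st_TDR : ST_TDR := by
  intro p q r hp hq hr x h1 h2 s hs
  refine ⟨tq_ne hp hq hr h1 h2 hs, tq_deriv hp hq hr h1 h2 hs, fun m i j => ?_⟩
  have hP : ∀ i j, HasDerivAt (fun x => tC (decide (m % 2 = 1)) (kk p q r s.1 s.2.1)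
      (tq p q r s x) (tq p q r (nxs s m) x) i j)
      (tCd (decide (m % 2 = 1)) (kk p q r s.1 s.2.1) (tq p q r s x) (tq p q r (nxs s m) x)
        (tqd p q r s x) (tqd p q r (nxs s m) x) i j) x := fun i j =>
    tC_deriv _ _ (tq_deriv hp hq hr h1 h2 hs) (tq_deriv hp hq hr h1 h2 (DG_nx s m hs))
      (tq_ne hp hq hr h1 h2 hs) i j
  have hQ : ∀ i j, HasDerivAt (fun _ : ℝ => Bm (kk p q r s.1 s.2.1)
      (Rb (mm p q r s.1 s.2.1) (m - 1)) i j) ((0 : Mt) i j) x := fun i j => hasDerivAt_const x _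
  have h := (mul_deriv hP hQ i j).const_mul (tc p q r s m : ℂ)
  refine h.congr_deriv ?_
  rw [tNd, Matrix.mul_zero, add_zero]
  rfl

end Pool.Agent.Helper6.MONO.W2
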