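import Pool.Agent.Helper12.CW.ST1

/-!
Plan W (MP_c75db0), typed frame: the link of a run with a factor of modulus one.
-/

set_option autoImplicit false
noncomputable section
namespace Pool.Agent.Helper6.MONO.W2

open Matrix
open Pool.Agent.Helper21.SUP (GS DG DG_nx)
open Pool.Agent.Helper21.SUP renaming nx → nxs

theorem tln_run {p q r : ℕ} (hp : 3 ≤ p) (hq : 3 ≤ q) (hr : 3 ≤ r) {x0 : ℝ} (hx : -2 < x0)
    {z : ℂ} (hz : InX x0 z) (hz1 : ‖z‖ = 1) {s : GS} (h : DG s) {m : ℕ} (hm : 2 ≤ m)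
    (hm' : m ≤ mm p q r s.1 s.2.1) :
    ∃ g : ℂ, ‖g‖ = 1 ∧ ∀ X : V3,
      (RMb p q r s m (zw z)).mulVec ((TM p q r s (zw z)).mulVec X) =
        (g * ((Rb (mm p q r s.1 s.2.1) (m - 1) : ℂ) ^ 2 + (SbP (kk p q r s.1 s.2.1) : ℂ)) /
          GhP (kk p q r s.1 s.2.1) (kk p q r s.2.1 s.2.2) (kk p q r s.1 s.2.2)
            (zoG (kk p q r) (wG (cw p q r) z) s.1 s.2.1 s.2.2)) •
          (TM p q r (nxs s m) (zw z)).mulVec
            (gact (wG (cw p q r) z) (alt s.1 s.2.1 (m - 1)) X) := by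
  have hD' := DG_nx s m h
  obtain ⟨o1, g1, e1⟩ := LNI_Gh hp hq hr hx hz h
  obtain ⟨o2, g2, e2⟩ := LNI_Gh hp hq hr hx hz hD'
  have hwz := wz_zw hx hz
  obtain ⟨n, a, b⟩ := s
  have hd : Dist n a b := h
  have hG := LNI_WGr hp hq hr (z := z) hz.1
  have hM : 3 ≤ mm p q r n a := LNI_mm hp hq hr n a hd.1
  have k1 := (LNI_kk hp hq hr n a hd.1)
  have k2 := (LNI_kk hp hq hr a b hd.2.1).1
  have k3 := (LNI_kk hp hq hr n b (Ne.symm hd.2.2)).1
  have c1 : (kk p q r n a : ℂ) ≠ 0 := by exact_mod_cast k1.1.ne'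
  have c2 : (kk p q r a b : ℂ) ≠ 0 := by exact_mod_cast k2.ne'
  have c3 : (kk p q r n b : ℂ) ≠ 0 := by exact_mod_cast k3.ne'
  have c4 : (2 + (kk p q r n a : ℂ)) ≠ 0 := by
    have : (0 : ℝ) < 2 + kk p q r n a := by linarith [k1.1]
    exact_mod_cast this.ne'
  have hms : ∀ i j, kk p q r i j = kk p q r j i := LNI_kk_symm p q r
  have hzo := LNI_zo hp hq hr (z := z) n a b hd
  have nna : ‖wG (cw p q r) z n a‖ = kk p q r n a := wG_norm hp hq hr hz1 n a hd.1
  set G := wG (cw p q r) z with hGdef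
  have hk : kk p q r n a = Kp (mm p q r n a) := rfl
  have hm1 : 2 ≤ m := hm
  have hm2 : m ≤ mm p q r n a := hm'
  have hW : ((Rb (mm p q r n a) (m - 1) : ℂ) ^ 2 + (SbP (kk p q r n a) : ℂ)) ≠ 0 := by
    have hS : 0 < SbP (kk p q r n a) := by
      rw [SbP]
      have : 0 < (2 - kk p q r n a) * (2 + kk p q r n a) :=
        mul_pos (by linarith [k1.2]) (by linarith [k1.1])
      have h2 := k1.1
      positivity
    have : 0 < (Rb (mm p q r n a) (m - 1)) ^ 2 + SbP (kk p q r n a) := by positivity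
    exact_mod_cast this.ne'
  rcases Nat.mod_two_eq_zero_or_one m with hpar | hpar
  · -- `m` even
    have hnx : nxs (n, a, b) m = (a, b, n) := by
      show nxD m n a b = _
      rw [nxD, if_pos hpar]
    rw [hnx] at hD' o2 g2 e2 ⊢
    have hzo' : zoG (kk p q r) G a b n = zoG (kk p q r) G n a b := by
      rw [hGdef, LNI_zo hp hq hr (z := z) a b n hD', LNI_zo hp hq hr (z := z) n a b hd,
        oriZ_rot hd]
    have g1' : GhP (kk p q r n a) (kk p q r a b) (kk p q r n b) (zoG (kk p q r) G n a b) ≠ 0 := g1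
    have g2' : GhP (kk p q r a b) (kk p q r n b) (kk p q r n a) (zoG (kk p q r) G n a b) ≠ 0 := by
      have := g2
      rw [← hzo', hms n b, hms n a]
      exact this
    have e1' : (kk p q r n a : ℂ) * GhP (kk p q r n a) (kk p q r a b) (kk p q r n b)
        (zoG (kk p q r) G n a b) * omS p q r (n, a, b) (zw z) = (kk p q r n b : ℂ) := e1
    have e2' : (kk p q r a b : ℂ) * GhP (kk p q r a b) (kk p q r n b) (kk p q r n a)
        (zoG (kk p q r) G n a b) * omS p q r (a, b, n) (zw z) = (kk p q r n a : ℂ) := by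
      have := e2
      rw [← hzo', hms n b, hms n a]
      exact this
    have hGna : G n a ≠ 0 := by
      intro h0
      have := hG.mul n a hd.1
      rw [h0, zero_mul] at this
      exact pow_ne_zero 2 c1 this.symm
    have hu : G n a / (kk p q r n a : ℂ) ≠ 0 := div_ne_zero hGna c1
    refine ⟨(G n a / (kk p q r n a : ℂ))⁻¹, ?_, fun X => ?_⟩
    · rw [norm_inv, norm_div, nna, Complex.norm_real, Real.norm_eq_abs, abs_of_pos k1.1,
        div_self k1.1.ne', inv_one]
    rw [TM_mulVec h, TM_mulVec hD', hwz]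
    have hodd := LNK_odd (kk p q r) G hG hd (mm p q r n a) (m - 1) hM hk (by omega) (by omega)
      g1' g2' X
    rw [← hGdef]
    simp only
    rw [hodd, RMb, ← Matrix.mulVec_mulVec]
    simp only
    rw [Bm_mulVec, hnx, show (decide (m % 2 = 1)) = false by simp [hpar],
      Cm_odd c1 c2 c4 rfl rfl g1' g2' e1' e2', smul_smul]
    congr 1
    field_simp
  · -- `m` odd
    have hnx : nxs (n, a, b) m = (n, b, a) := by
      show nxD m n a b = _
      rw [nxD, if_neg (by omega)]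
    rw [hnx] at hD' o2 g2 e2 ⊢
    have hzo' : zoG (kk p q r) G n b a = (zoG (kk p q r) G n a b)⁻¹ := by
      rw [hGdef, LNI_zo hp hq hr (z := z) n b a hD', LNI_zo hp hq hr (z := z) n a b hd,
        oriZ_flip hd]
      cases oriZ (n, a, b) <;> simp
    have g1' : GhP (kk p q r n a) (kk p q r a b) (kk p q r n b) (zoG (kk p q r) G n a b) ≠ 0 := g1
    have g2' : GhP (kk p q r n b) (kk p q r a b) (kk p q r n a) (zoG (kk p q r) G n a b)⁻¹ ≠ 0 := by
      have := g2
      rw [← hzo', hms a b]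
      exact this
    have e1' : (kk p q r n a : ℂ) * GhP (kk p q r n a) (kk p q r a b) (kk p q r n b)
        (zoG (kk p q r) G n a b) * omS p q r (n, a, b) (zw z) = (kk p q r n b : ℂ) := e1
    have e2' : (kk p q r n b : ℂ) * GhP (kk p q r n b) (kk p q r a b) (kk p q r n a)
        (zoG (kk p q r) G n a b)⁻¹ * omS p q r (n, b, a) (zw z) = (kk p q r n a : ℂ) := by
      have := e2
      rw [← hzo', hms a b]
      exact this
    refine ⟨1, norm_one, fun X => ?_⟩
    rw [TM_mulVec h, TM_mulVec hD', hwz]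
    have heven := LNK_even (kk p q r) G hG hd (mm p q r n a) (m - 1) hM hk (by omega) (by omega)
      (by omega) g1' g2' X
    rw [← hGdef]
    simp only
    rw [heven, RMb, ← Matrix.mulVec_mulVec]
    simp only
    rw [Bm_mulVec, hnx, show (decide (m % 2 = 1)) = true by simp [hpar],
      Cm_even c1 c3 rfl rfl g1' g2' e1' e2', smul_smul]
    congr 1
    field_simp

theorem inX_zx {x : ℝ} (h1 : -2 < x) (h2 : x < 2) : InX ((x - 2) / 2) (zx x) :=
  inX_of_norm (zx_norm h1.le h2.le) (by rw [zx_re]; linarith)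

theorem st_TLN : ST_TLN := by
  intro p q r hp hq hr x h1 h2 s hs m hm hm'
  have hx0 : (-2 : ℝ) < (x - 2) / 2 := by linarith
  have hz := inX_zx h1 h2
  have hz1 := zx_norm h1.le h2.le
  obtain ⟨g, hg, e⟩ := tln_run hp hq hr hx0 hz hz1 hs hm hm'
  obtain ⟨o1, g1, e1⟩ := LNI_Gh hp hq hr hx0 hz hs
  have k1 := (LNI_kk hp hq hr s.1 s.2.1 hs.1)
  have k3 := (LNI_kk hp hq hr s.1 s.2.2 (Ne.symm hs.2.2)).1
  have c1 : (kk p q r s.1 s.2.1 : ℂ) ≠ 0 := by exact_mod_cast k1.1.ne'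
  have c3 : (kk p q r s.1 s.2.2 : ℂ) ≠ 0 := by exact_mod_cast k3.ne'
  have hW : ((Rb (mm p q r s.1 s.2.1) (m - 1) : ℂ) ^ 2 + (SbP (kk p q r s.1 s.2.1) : ℂ)) ≠ 0 := by
    have hS : 0 < SbP (kk p q r s.1 s.2.1) := by
      rw [SbP]
      have : 0 < (2 - kk p q r s.1 s.2.1) * (2 + kk p q r s.1 s.2.1) :=
        mul_pos (by linarith [k1.2]) (by linarith [k1.1])
      have h2 := k1.1
      positivity
    have : 0 < (Rb (mm p q r s.1 s.2.1) (m - 1)) ^ 2 + SbP (kk p q r s.1 s.2.1) := by positivity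
    exact_mod_cast this.ne'
  refine ⟨g, hg, fun X => ?_⟩
  have hN : tN p q r s m x = ((tc p q r s m : ℂ) * (omS p q r s (zw (zx x)))⁻¹) •
      RMb p q r s m (zw (zx x)) := by
    rw [tN, tC, Matrix.smul_mul, smul_smul]
    rfl
  rw [hN, Matrix.smul_mulVec, e X, smul_smul]
  congr 1
  have o : (omS p q r s (zw (zx x)))⁻¹ = (kk p q r s.1 s.2.1 : ℂ) *
      GhP (kk p q r s.1 s.2.1) (kk p q r s.2.1 s.2.2) (kk p q r s.1 s.2.2)
      (zoG (kk p q r) (wG (cw p q r) (zx x)) s.1 s.2.1 s.2.2) / (kk p q r s.1 s.2.2 : ℂ) := by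
    rw [← e1]
    field_simp
  rw [o, tc]
  push_cast
  field_simp

end Pool.Agent.Helper6.MONO.W2
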